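import Pool.Agent.Run7.h925.LB.TD

set_option autoImplicit false

/-!
# Five arcs of a circuit
-/

namespace Pool.Agent.Run7.h925.LB

open SimpleGraph

variable {V W : Type}

/-- two sets are joined by an edge -/
def Touch (G : SimpleGraph V) (S T : Set V) : Prop := ∃ x ∈ S, ∃ y ∈ T, G.Adj x y

theorem chain_connected {G : SimpleGraph V} : ∀ l : List V, l ≠ [] → l.IsChain G.Adj →
    (G.induce {x | x ∈ l}).Connected := by
  intro l
  induction l with
  | nil => intro h; exact absurd rfl h
  | cons x l ih =>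
    intro _ hc
    rcases l with _ | ⟨y, l⟩
    · have e : {t | t ∈ [x]} = ({x} : Set V) := by ext t; simp
      rw [e, induce_singleton_eq_top]
      exact connected_top
    · have h1 := ih (by simp) (List.IsChain.tail hc)
      have hxy : G.Adj x y := by
        have := hc
        simp only [List.isChain_cons_cons] at this
        exact this.1
      have h2 := insert_connected h1 (y := x) (z := y) (by simp) hxy
      have e : {t | t ∈ x :: y :: l} = insert x {t | t ∈ y :: l} := by
        ext t; simp
      rw [e]; exact h2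

theorem arcs {G : SimpleGraph V} (z : ℕ → V) (L : ℕ) (h5 : 5 ≤ L)
    (inj : ∀ s t, s < L → t < L → z s = z t → s = t)
    (adj : ∀ t, t + 1 < L → G.Adj (z t) (z (t + 1))) (wrap : G.Adj (z (L - 1)) (z 0))
    (p : Fin 3 → ℕ) (hp : ∀ k, p k < L) (hpi : Function.Injective p) :
    ∃ (A : Fin 5 → Set V) (i : Fin 3 → Fin 5), Function.Injective i ∧
      (∀ s, (G.induce (A s)).Connected) ∧ (∀ s t, s ≠ t → Disjoint (A s) (A t)) ∧
      (∀ s, Touch G (A s) (A (s + 1))) ∧ (∀ s, ∀ x ∈ A s, ∃ t < L, z t = x) ∧
      ∀ k, z (p k) ∈ A (i k) := by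
  classical
  obtain ⟨T, hT1, hT2, hT3⟩ := Finset.exists_subsuperset_card_eq
    (s := insert 0 (Finset.univ.image p)) (t := Finset.range L) (n := 5) (by
      intro t ht
      rw [Finset.mem_insert, Finset.mem_image] at ht
      rw [Finset.mem_range]
      rcases ht with rfl | ⟨k, -, rfl⟩
      · omega
      · exact hp k) (by
      refine (Finset.card_insert_le _ _).trans ?_
      have := Finset.card_image_le (s := (Finset.univ : Finset (Fin 3))) (f := p)
      rw [Finset.card_univ, Fintype.card_fin] at this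
      omega) (by rw [Finset.card_range]; exact h5)
  have h0T : 0 ∈ T := hT1 (Finset.mem_insert_self _ _)
  have hpT : ∀ k, p k ∈ T := fun k =>
    hT1 (Finset.mem_insert_of_mem (Finset.mem_image_of_mem p (Finset.mem_univ k)))
  let c : ℕ → ℕ := fun t => (T.filter (fun s => s ≤ t)).card
  have c0 : c 0 = 1 := by
    have : T.filter (fun s => s ≤ 0) = {0} := by
      ext s
      rw [Finset.mem_filter, Finset.mem_singleton]
      constructor
      · rintro ⟨-, h⟩; omega
      · rintro rfl; exact ⟨h0T, le_rfl⟩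
    change (T.filter (fun s => s ≤ 0)).card = 1
    rw [this]; rfl
  have cmono : ∀ s t, s ≤ t → c s ≤ c t := by
    intro s t hst
    apply Finset.card_le_card
    intro u hu
    rw [Finset.mem_filter] at hu ⊢
    exact ⟨hu.1, hu.2.trans hst⟩
  have cstep : ∀ t, c (t + 1) ≤ c t + 1 := by
    intro t
    have : T.filter (fun s => s ≤ t + 1) ⊆ insert (t + 1) (T.filter (fun s => s ≤ t)) := by
      intro u hu
      rw [Finset.mem_filter] at hu
      rw [Finset.mem_insert, Finset.mem_filter]
      by_cases h : u = t + 1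
      · exact Or.inl h
      · exact Or.inr ⟨hu.1, by omega⟩
    exact (Finset.card_le_card this).trans (Finset.card_insert_le _ _)
  have clast : c (L - 1) = 5 := by
    have : T.filter (fun s => s ≤ L - 1) = T := by
      apply Finset.filter_true_of_mem
      intro s hs
      have := Finset.mem_range.1 (hT2 hs)
      omega
    change (T.filter (fun s => s ≤ L - 1)).card = 5
    rw [this]; exact hT3
  have c1 : ∀ t, 1 ≤ c t := fun t => c0 ▸ cmono 0 t (Nat.zero_le _)
  have c5 : ∀ t, c t ≤ 5 := fun t => by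
    have : (T.filter (fun s => s ≤ t)).card ≤ T.card := Finset.card_filter_le _ _
    change (T.filter (fun s => s ≤ t)).card ≤ 5
    omega
  have cstrict : ∀ s t, s < t → t ∈ T → c s < c t := by
    intro s t hst ht
    apply Finset.card_lt_card
    refine ⟨fun u hu => ?_, fun hsub => ?_⟩
    · rw [Finset.mem_filter] at hu ⊢
      exact ⟨hu.1, by omega⟩
    · have := hsub (Finset.mem_filter.2 ⟨ht, le_rfl⟩)
      rw [Finset.mem_filter] at this
      omega
  let A : Fin 5 → Set V := fun s => {x | ∃ t < L, z t = x ∧ c t = (s : ℕ) + 1}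
  have jump : ∀ m, 1 ≤ m → m < 5 → ∃ t, t + 1 < L ∧ c t = m ∧ c (t + 1) = m + 1 := by
    intro m hm hm5
    have hex : ∃ t, m + 1 ≤ c t := ⟨L - 1, by rw [clast]; omega⟩
    have hmin : ∀ m' < Nat.find hex, ¬ (m + 1 ≤ c m') := fun m' h => Nat.find_min hex h
    have hspec := Nat.find_spec hex
    have hle : Nat.find hex ≤ L - 1 := Nat.find_min' hex (by rw [clast]; omega)
    have hpos : Nat.find hex ≠ 0 := by
      intro h
      rw [h, c0] at hspec
      omega
    obtain ⟨t, ht⟩ := Nat.exists_eq_succ_of_ne_zero hpos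
    have h1 := hmin t (by omega)
    have h2 := cstep t
    rw [ht] at hspec hle
    refine ⟨t, by omega, ?_, ?_⟩
    · change m + 1 ≤ c (t + 1) at hspec
      omega
    · change m + 1 ≤ c (t + 1) at hspec
      omega
  have reach : ∀ (s : Fin 5) (n t : ℕ) (ht : t + n < L) (h1 : c t = s + 1)
      (h2 : c (t + n) = s + 1),
      (G.induce (A s)).Reachable ⟨z t, t, by omega, rfl, h1⟩ ⟨z (t + n), t + n, ht, rfl, h2⟩ := by
    intro s n
    induction n with
    | zero => intro t ht h1 h2; exact Reachable.refl _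
    | succ n ih =>
      intro t ht h1 h2
      have h3 : c (t + n) = s + 1 := by
        have := cmono t (t + n) (by omega)
        have := cmono (t + n) (t + (n + 1)) (by omega)
        omega
      have h4 := ih t (by omega) h1 h3
      refine h4.trans (Adj.reachable ?_)
      exact adj (t + n) (by omega)
  refine ⟨A, fun k => ⟨c (p k) - 1, ?_⟩, ?_, ?_, ?_, ?_, ?_, ?_⟩
  · have := c5 (p k)
    have := c1 (p k)
    omega
  · intro k k' hkk
    have h1 : c (p k) - 1 = c (p k') - 1 := congrArg Fin.val hkk
    have h2 := c1 (p k)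
    have h3 := c1 (p k')
    apply hpi
    rcases lt_trichotomy (p k) (p k') with h | h | h
    · have := cstrict _ _ h (hpT k'); omega
    · exact h
    · have := cstrict _ _ h (hpT k); omega
  · intro s
    have hne : ∃ t < L, c t = s + 1 := by
      by_cases hs : (s : ℕ) = 0
      · exact ⟨0, by omega, by rw [c0, hs]⟩
      · obtain ⟨t, h1, -, h3⟩ := jump s (by omega) s.2
        exact ⟨t + 1, h1, h3⟩
    obtain ⟨t0, ht0, hc0⟩ := hne
    refine { preconnected := ?_, nonempty := ⟨⟨z t0, t0, ht0, rfl, hc0⟩⟩ }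
    rintro ⟨x, t, ht, rfl, h1⟩ ⟨y, t', ht', rfl, h2⟩
    rcases Nat.le_total t t' with h | h
    · obtain ⟨n, rfl⟩ := Nat.exists_eq_add_of_le h
      exact reach s n t ht' h1 h2
    · obtain ⟨n, rfl⟩ := Nat.exists_eq_add_of_le h
      exact (reach s n t' ht h2 h1).symm
  · intro s t hst
    rw [Set.disjoint_left]
    rintro x ⟨u, hu, hux, hcu⟩ ⟨u', hu', hux', hcu'⟩
    have := inj u u' hu hu' (hux.trans hux'.symm)
    subst this
    apply hst
    apply Fin.ext
    omega
  · intro s
    by_cases hs : (s : ℕ) = 4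
    · have e : s + 1 = 0 := by
        have : s = 4 := Fin.ext hs
        subst this; rfl
      refine ⟨z (L - 1), ⟨L - 1, by omega, rfl, by rw [clast, hs]⟩, z 0, ⟨0, by omega, rfl, ?_⟩,
        wrap⟩
      rw [e, c0]; rfl
    · have hs4 : (s : ℕ) < 4 := by have := s.2; omega
      obtain ⟨t, h1, h2, h3⟩ := jump (s + 1) (by omega) (by omega)
      refine ⟨z t, ⟨t, by omega, rfl, h2⟩, z (t + 1), ⟨t + 1, h1, rfl, ?_⟩, adj t h1⟩
      rw [h3]
      have : ((s + 1 : Fin 5) : ℕ) = s + 1 := by
        rw [Fin.val_add]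
        change ((s : ℕ) + 1) % 5 = s + 1
        exact Nat.mod_eq_of_lt (by omega)
      rw [this]
  · rintro s x ⟨t, ht, hx, -⟩
    exact ⟨t, ht, hx⟩
  · intro k
    refine ⟨p k, hp k, rfl, ?_⟩
    have := c1 (p k)
    change c (p k) = c (p k) - 1 + 1
    omega

end Pool.Agent.Run7.h925.LB
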