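import Pool.Agent.R145.Cir.Ham2
import Pool.Agent.Run7.h925.LB.Arc

set_option autoImplicit false

/-!
# Two pentagons joined by three disjoint edges as a minor
-/

namespace Pool.Agent.Run7.h925.LB

open SimpleGraph Pool.Agent.R145.Cir

variable {V W : Type}

/-- The graph has a minor obtained from two disjoint pentagons by adding three disjoint edges
between them (branch sets `A 0, ..., A 4` and `B 0, ..., B 4`). -/
def Linked (G : SimpleGraph V) : Prop :=
  ∃ (A B : Fin 5 → Set V) (i j : Fin 3 → Fin 5), Function.Injective i ∧ Function.Injective j ∧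
    (∀ s, (G.induce (A s)).Connected) ∧ (∀ s, (G.induce (B s)).Connected) ∧
    (∀ s t, s ≠ t → Disjoint (A s) (A t)) ∧ (∀ s t, s ≠ t → Disjoint (B s) (B t)) ∧
    (∀ s t, Disjoint (A s) (B t)) ∧
    (∀ s, ∃ x ∈ A s, ∃ y ∈ A (s + 1), G.Adj x y) ∧
    (∀ s, ∃ x ∈ B s, ∃ y ∈ B (s + 1), G.Adj x y) ∧
    ∀ k, ∃ x ∈ A (i k), ∃ y ∈ B (j k), G.Adj x y

theorem linked_minor {H : SimpleGraph W} {G : SimpleGraph V} {f : W → Finset V}
    (hf : Min H G f) (h : Linked H) : Linked G := by
  obtain ⟨A, B, i, j, hi, hj, cA, cB, dA, dB, dAB, tA, tB, tAB⟩ := h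
  have dis : ∀ S T : Set W, Disjoint S T →
      Disjoint {x | ∃ a ∈ S, x ∈ f a} {x | ∃ a ∈ T, x ∈ f a} := by
    intro S T hST
    rw [Set.disjoint_left]
    rintro x ⟨a, ha, hx⟩ ⟨b, hb, hx'⟩
    have hab : a ≠ b := by
      rintro rfl
      exact Set.disjoint_left.1 hST ha hb
    exact Finset.disjoint_left.1 (hf.1 a b hab) hx hx'
  have tou : ∀ S T : Set W, (∃ x ∈ S, ∃ y ∈ T, H.Adj x y) →
      ∃ x ∈ {x | ∃ a ∈ S, x ∈ f a}, ∃ y ∈ {x | ∃ a ∈ T, x ∈ f a}, G.Adj x y := by
    rintro S T ⟨a, ha, b, hb, hab⟩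
    obtain ⟨x, hx, y, hy, hxy⟩ := hf.2.2 a b hab
    exact ⟨x, ⟨a, ha, hx⟩, y, ⟨b, hb, hy⟩, hxy⟩
  exact ⟨fun s => {x | ∃ a ∈ A s, x ∈ f a}, fun s => {x | ∃ a ∈ B s, x ∈ f a}, i, j, hi, hj,
    fun s => union_connected hf _ (cA s), fun s => union_connected hf _ (cB s),
    fun s t hst => dis _ _ (dA s t hst), fun s t hst => dis _ _ (dB s t hst),
    fun s t => dis _ _ (dAB s t), fun s => tou _ _ (tA s), fun s => tou _ _ (tB s),
    fun k => tou _ _ (tAB k)⟩

/-- arcs of a cycle through three given vertices -/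
theorem cycle_arcs {H : SimpleGraph W} {v : W} (c : H.Walk v v) (hc : c.IsCycle)
    (hl : 5 ≤ c.length) (a : Fin 3 → W) (ha : ∀ k, a k ∈ c.support)
    (hai : Function.Injective a) :
    ∃ (A : Fin 5 → Set W) (i : Fin 3 → Fin 5), Function.Injective i ∧
      (∀ s, (H.induce (A s)).Connected) ∧ (∀ s t, s ≠ t → Disjoint (A s) (A t)) ∧
      (∀ s, Touch H (A s) (A (s + 1))) ∧ (∀ s, ∀ x ∈ A s, x ∈ c.support) ∧
      ∀ k, a k ∈ A (i k) := by
  have hex : ∀ k, ∃ t, t < c.length ∧ c.getVert t = a k := by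
    intro k
    obtain ⟨n, hn, hnl⟩ := Walk.mem_support_iff_exists_getVert.1 (ha k)
    by_cases h : n = c.length
    · refine ⟨0, by omega, ?_⟩
      rw [← hn, h, Walk.getVert_length, Walk.getVert_zero]
    · exact ⟨n, by omega, hn⟩
  choose p hp hpa using hex
  have hpi : Function.Injective p := by
    intro k k' h
    apply hai
    rw [← hpa, ← hpa, h]
  have inj : ∀ s t, s < c.length → t < c.length → c.getVert s = c.getVert t → s = t := by
    intro s t hs ht h
    exact hc.getVert_injOn' (by simp only [Set.mem_ofPred_eq]; omega)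
      (by simp only [Set.mem_ofPred_eq]; omega) h
  have wrap : H.Adj (c.getVert (c.length - 1)) (c.getVert 0) := by
    have h1 := c.adj_getVert_succ (i := c.length - 1) (by omega)
    have e : c.length - 1 + 1 = c.length := by omega
    rw [e, Walk.getVert_length] at h1
    rw [Walk.getVert_zero]
    exact h1
  obtain ⟨A, i, h1, h2, h3, h4, h5, h6⟩ := arcs (G := H) (fun t => c.getVert t) c.length hl inj
    (fun t ht => c.adj_getVert_succ (by omega)) wrap p hp hpi
  refine ⟨A, i, h1, h2, h3, h4, fun s x hx => ?_, fun k => ?_⟩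
  · obtain ⟨t, -, ht⟩ := h5 s x hx
    rw [← ht]
    exact c.getVert_mem_support t
  · have := h6 k
    rwa [← hpa k]

/-- Two disjoint long cycles in a 3-connected graph give the minor. -/
theorem linked_of_cycles [Fintype W] {H : SimpleGraph W}
    (hB : ∀ u v : W, u ≠ v → (H.induce {x | x ≠ u ∧ x ≠ v}).Connected) {v w : W}
    (c : H.Walk v v) (c' : H.Walk w w) (hc : c.IsCycle) (hc' : c'.IsCycle) (hl : 5 ≤ c.length)
    (hl' : 5 ≤ c'.length) (hd : ∀ x ∈ c.support, x ∉ c'.support) : Linked H := by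
  classical
  obtain ⟨z1, z2, z3⟩ := walk_ci c hc
  obtain ⟨z4, z5, z6⟩ := walk_ci c' hc'
  have mem : ∀ x ∈ c.support, x ∈ c.support.tail := by
    intro x hx
    rw [← Walk.cons_tail_support] at hx
    rcases List.mem_cons.1 hx with rfl | h
    · exact Walk.end_mem_tail_support (fun hn => by
        have := Walk.length_eq_zero_iff.2 hn
        omega)
    · exact h
  have mem' : ∀ x ∈ c'.support, x ∈ c'.support.tail := by
    intro x hx
    rw [← Walk.cons_tail_support] at hx
    rcases List.mem_cons.1 hx with rfl | h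
    · exact Walk.end_mem_tail_support (fun hn => by
        have := Walk.length_eq_zero_iff.2 hn
        omega)
    · exact h
  obtain ⟨a, b, I, hI, hdis⟩ := three_br hB z1 z4 (fun x hx hx' => hd x (z3 x hx) (z6 x hx'))
  have hai : Function.Injective a := by
    intro k k' h
    by_contra hne
    exact hdis k k' hne (a k) (by simp) (by rw [h]; simp)
  have hbi : Function.Injective b := by
    intro k k' h
    by_contra hne
    exact hdis k k' hne (b k) (by simp) (by rw [h]; simp)
  obtain ⟨A, i, i1, i2, i3, i4, i5, i6⟩ := cycle_arcs c hc hl a (fun k => z3 _ (hI k).ha) hai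
  obtain ⟨B, j, j1, j2, j3, j4, j5, j6⟩ := cycle_arcs c' hc' hl' b (fun k => z6 _ (hI k).hb) hbi
  -- the enlarged arcs
  let A' : Fin 5 → Set W := fun s => A s ∪ {x | ∃ k, i k = s ∧ x ∈ I k}
  have hIc : ∀ k, ∀ x ∈ I k, x ∉ c.support := fun k x hx hx' => (hI k).z x hx (mem x hx')
  have hIc' : ∀ k, ∀ x ∈ I k, x ∉ c'.support := fun k x hx hx' => (hI k).z' x hx (mem' x hx')
  have hII : ∀ k k', k ≠ k' → ∀ x ∈ I k, x ∉ I k' := by
    intro k k' hkk x hx hx'
    exact hdis k k' hkk x (by simp [hx]) (by simp [hx'])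
  refine ⟨A', B, i, j, i1, j1, ?_, j2, ?_, j3, ?_, ?_, j4, ?_⟩
  · intro s
    by_cases h : ∃ k, i k = s
    · obtain ⟨k, rfl⟩ := h
      have hch : (H.induce {x | x ∈ a k :: I k}).Connected := by
        apply chain_connected _ (by simp)
        have h1 := (hI k).pa.2
        have h2 : [a k] ++ (I k ++ [b k]) = (a k :: I k) ++ [b k] := by simp
        rw [h2] at h1
        exact (List.isChain_append.1 h1).1
      have h3 : (H.induce (A (i k) ∪ {x | x ∈ a k :: I k})).Connected :=
        induce_union_connected (i2 (i k)).preconnected hch.preconnected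
          ⟨a k, i6 k, by simp⟩
      have e : A' (i k) = A (i k) ∪ {x | x ∈ a k :: I k} := by
        ext x
        constructor
        · rintro (h | ⟨k', hk', hx⟩)
          · exact Or.inl h
          · have : k' = k := i1 hk'
            subst this
            exact Or.inr (List.mem_cons_of_mem _ hx)
        · rintro (h | h)
          · exact Or.inl h
          · rcases List.mem_cons.1 h with rfl | h
            · exact Or.inl (i6 k)
            · exact Or.inr ⟨k, rfl, h⟩
      rw [e]; exact h3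
    · have e : A' s = A s := by
        ext x
        constructor
        · rintro (h' | ⟨k, hk, -⟩)
          · exact h'
          · exact absurd ⟨k, hk⟩ h
        · intro h'; exact Or.inl h'
      rw [e]; exact i2 s
  · intro s t hst
    rw [Set.disjoint_left]
    rintro x (hx | ⟨k, hk, hx⟩) (hx' | ⟨k', hk', hx'⟩)
    · exact Set.disjoint_left.1 (i3 s t hst) hx hx'
    · exact hIc k' x hx' (i5 s x hx)
    · exact hIc k x hx (i5 t x hx')
    · have hkk : k ≠ k' := by
        rintro rfl
        exact hst (hk.symm.trans hk')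
      exact hII k k' hkk x hx hx'
  · intro s t
    rw [Set.disjoint_left]
    rintro x (hx | ⟨k, hk, hx⟩) hx'
    · exact hd x (i5 s x hx) (j5 t x hx')
    · exact hIc' k x hx (j5 t x hx')
  · intro s
    obtain ⟨x, hx, y, hy, hxy⟩ := i4 s
    exact ⟨x, Or.inl hx, y, Or.inl hy, hxy⟩
  · intro k
    have h1 := (hI k).pa.2
    have h2 : [a k] ++ (I k ++ [b k]) = (a k :: I k) ++ [b k] := by simp
    rw [h2] at h1
    have h3 := (List.isChain_append.1 h1).2.2
    have hne : a k :: I k ≠ [] := by simp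
    have h4 := h3 _ (List.getLast?_eq_getLast_of_ne_nil hne) (b k) (by simp)
    refine ⟨_, ?_, b k, j6 k, h4⟩
    have h5 := List.getLast_mem hne
    rcases List.mem_cons.1 h5 with h | h
    · rw [h]; exact Or.inl (i6 k)
    · exact Or.inr ⟨k, rfl, h⟩

end Pool.Agent.Run7.h925.LB
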