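import Pool.Agent.W315.MD.Final
import Pool.Agent.TH849.LB.Crit
import Pool.Agent.Run7.h925.LB.Link

set_option autoImplicit false

/-!
# `r`-graphs without two pentagons joined by three disjoint edges
-/

namespace Pool.Agent.Run7.h925.LB

open H76FC H76TX H76TY H76TW Pool.Agent.W315.LB Pool.Agent.TH583.HB Pool.Agent.TH100.LV

theorem few_of_linked (W : Type) [Fintype W] (H : SimpleGraph W) (hH : Brick H) (hn : ¬ Linked H) :
    Few W H := by
  refine few_of_meet W H (fun v w c c' hc hc' _ _ hl hl' => ?_)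
  by_contra hcon
  push Not at hcon
  exact hn (linked_of_cycles (fun u v huv => (hH u v huv).1) c c' hc hc' hl hl' hcon)

/-- `r`-graphs all of whose bricks are small, sums of small graphs or without linked pentagons -/
theorem mcover_linked {r n m : ℕ} (ends : Fin m → Sym2 (Fin n)) (hG : MGraph r ends)
    (hB : ∀ (W : Type) [Fintype W] (H : SimpleGraph W), Brick H →
      OddMinor H (SimpleGraph.fromEdgeSet (Set.range ends)) →
      ¬ Linked H ∨ (Fintype.card W ≤ 13 ∧ ¬ PetMinor H) ∨ Sum5 H) : MCover 1 r ends := by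
  obtain ⟨hp, _⟩ := toR r n m ends hG
  rw [coverIff 1 r n m ends hG]
  refine main Pool.Agent.W209.LB.conn3 Pool.Agent.W427.LB.bicrit transport H76TW.bip H76TW.span
    tight2 connSide (fun W _ H => Known' W H ∨ Few W H)
    (fun V _ _ r p hc hp => eight' V r p (by omega) hp)
    (fun V _ _ r p hr hp hnt _ hk => hk.elim (fun h => Or.inl (cover_known' hp h))
      (fun h => Or.inr (step hr hp hnt h))) _ _ rfl r _ hp ?_
  intro W _ H hH ho
  have hcl : ¬ Linked H ∨ (Fintype.card W ≤ 13 ∧ ¬ PetMinor H) ∨ Sum5 H := by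
    refine hB W H hH (oddMinor_sub H _ _ id Function.injective_id ?_ ho)
    intro a b hab
    have hmul : ∀ a b : Fin n, mult ends a b ≠ 0 → ∃ e, ends e = s(a, b) := by
      intro a b huv
      unfold mult at huv
      obtain ⟨e, he⟩ := Finset.card_pos.1 (Nat.pos_of_ne_zero huv)
      exact ⟨e, (Finset.mem_filter.1 he).2⟩
    unfold gr at hab
    rw [SimpleGraph.fromRel_adj] at hab
    rw [SimpleGraph.fromEdgeSet_adj]
    refine ⟨?_, hab.1⟩
    rcases hab.2 with h1 | h1
    · obtain ⟨e, he⟩ := hmul a b (by omega)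
      exact ⟨e, he⟩
    · obtain ⟨e, he⟩ := hmul b a (by omega)
      exact ⟨e, by simp only [id]; rw [he, Sym2.eq_swap]⟩
  rcases hcl with h | h | h
  · exact Or.inr (few_of_linked W H hH h)
  · exact Or.inl (Or.inl (Or.inl h))
  · exact Or.inl (Or.inl (Or.inr (Or.inl h)))

end Pool.Agent.Run7.h925.LB
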