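import Mathlib

set_option autoImplicit false

/-!
# Tree-depth at most five: rankings, minors, bricks (for MP_2d6e82_co)
-/

namespace Pool.Agent.Run7.h925.LB

open SimpleGraph

variable {V W : Type}

/-- The least value of `d` on a connected set is attained only once. -/
def UMin (G : SimpleGraph V) (d : V → ℕ) : Prop :=
  ∀ S : Set V, (G.induce S).Connected → ∃ v ∈ S, ∀ w ∈ S, w ≠ v → d v < d w

/-- the minor relation with connected branch sets -/
def Min {W V : Type} (H : SimpleGraph W) (G : SimpleGraph V) (f : W → Finset V) : Prop :=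
  (∀ a b, a ≠ b → Disjoint (f a) (f b)) ∧ 
    (∀ a, (G.induce (f a : Set V)).Connected) ∧
    ∀ a b, H.Adj a b → ∃ x ∈ f a, ∃ y ∈ f b, G.Adj x y

theorem reach_mono {G : SimpleGraph V} {S T : Set V} (h : S ⊆ T) {x y : V} (hx : x ∈ S)
    (hy : y ∈ S) (hr : (G.induce S).Reachable ⟨x, hx⟩ ⟨y, hy⟩) :
    (G.induce T).Reachable ⟨x, h hx⟩ ⟨y, h hy⟩ :=
  hr.map (SimpleGraph.induceHomOfLE G h).toHom

theorem union_connected {H : SimpleGraph W} {G : SimpleGraph V} {f : W → Finset V}
    (hf : Min H G f) (S : Set W) (hS : (H.induce S).Connected) :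
    (G.induce {x | ∃ a ∈ S, x ∈ f a}).Connected := by
  obtain ⟨-, h2, h3⟩ := hf
  set T : Set V := {x | ∃ a ∈ S, x ∈ f a} with hT
  have hsub : ∀ a ∈ S, (f a : Set V) ⊆ T := fun a ha x hx => ⟨a, ha, hx⟩
  have same : ∀ a (ha : a ∈ S) x (hx : x ∈ f a) y (hy : y ∈ f a),
      (G.induce T).Reachable ⟨x, hsub a ha hx⟩ ⟨y, hsub a ha hy⟩ := by
    intro a ha x hx y hy
    exact reach_mono (hsub a ha) hx hy ((h2 a).preconnected ⟨x, hx⟩ ⟨y, hy⟩)
  have key : ∀ a b : S, (H.induce S).Reachable a b →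
      ∀ x (hx : x ∈ f a) y (hy : y ∈ f b),
      (G.induce T).Reachable ⟨x, hsub a a.2 hx⟩ ⟨y, hsub b b.2 hy⟩ := by
    rintro a b ⟨p⟩
    induction p with
    | nil => intro x hx y hy; exact same _ (Subtype.prop _) x hx y hy
    | @cons a b c hab p ih =>
      intro x hx y hy
      obtain ⟨u, hu, v, hv, huv⟩ := h3 a b hab
      have h4 : (G.induce T).Adj ⟨u, hsub a a.2 hu⟩ ⟨v, hsub b b.2 hv⟩ := huv
      exact ((same _ a.2 x hx u hu).trans h4.reachable).trans (ih v hv y hy)
  obtain ⟨a0⟩ := hS.nonempty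
  obtain ⟨x0⟩ := (h2 a0).nonempty
  refine { preconnected := ?_, nonempty := ⟨⟨x0, a0, a0.2, x0.2⟩⟩ }
  rintro ⟨x, a, ha, hx⟩ ⟨y, b, hb, hy⟩
  exact key ⟨a, ha⟩ ⟨b, hb⟩ (hS.preconnected _ _) x hx y hy

theorem umin_minor {H : SimpleGraph W} {G : SimpleGraph V} {f : W → Finset V}
    (hf : Min H G f) (hne : ∀ a, (f a).Nonempty) {d : V → ℕ} (hd : UMin G d) :
    UMin H (fun a => (f a).inf' (hne a) d) := by
  intro S hS
  obtain ⟨v, ⟨a, ha, hv⟩, hmin⟩ := hd _ (union_connected hf S hS)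
  refine ⟨a, ha, fun b hb hba => ?_⟩
  obtain ⟨w, hw, hwe⟩ := Finset.exists_mem_eq_inf' (hne b) d
  have hwv : w ≠ v := by
    rintro rfl
    exact Finset.disjoint_left.1 (hf.1 a b hba.symm) hv hw
  have h1 := hmin w ⟨b, hb, hw⟩ hwv
  calc (f a).inf' (hne a) d ≤ d v := Finset.inf'_le d hv
    _ < d w := h1
    _ = (f b).inf' (hne b) d := hwe.symm

/-- bricks: deleting any two vertices leaves a connected graph with a perfect matching -/
def Brk {W : Type} (H : SimpleGraph W) : Prop :=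
  ∀ u v : W, u ≠ v → (H.induce {x | x ≠ u ∧ x ≠ v}).Connected ∧
    ∃ M : W → W, (∀ x, M (M x) = x) ∧ M u = v ∧ ∀ x, x ≠ u → x ≠ v → H.Adj x (M x)

theorem insert_connected {G : SimpleGraph V} {S : Set V} (hS : (G.induce S).Connected) {y z : V}
    (hz : z ∈ S) (h : G.Adj y z) : (G.induce (insert y S)).Connected := by
  have h1 : (G.induce {y, z}).Connected := induce_pair_connected_of_adj h
  have h2 : (G.induce ({y, z} ∪ S)).Connected :=
    induce_union_connected h1.preconnected hS.preconnected ⟨z, by simp, hz⟩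
  have e : ({y, z} ∪ S : Set V) = insert y S := by
    ext x; simp only [Set.mem_union, Set.mem_insert_iff, Set.mem_singleton_iff]
    constructor
    · rintro ((rfl | rfl) | h)
      · exact Or.inl rfl
      · exact Or.inr hz
      · exact Or.inr h
    · rintro (rfl | h)
      · exact Or.inl (Or.inl rfl)
      · exact Or.inr h
  rwa [e] at h2

/-- every vertex of a brick has a neighbour different from a given vertex -/
theorem brick_nbr {H : SimpleGraph W} (hH : Brk H) {x y z : W} (hxy : x ≠ y) (hz : z ≠ x)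
    (hzy : z ≠ y) : ∃ w, H.Adj y w ∧ w ≠ x ∧ w ≠ y := by
  obtain ⟨-, M, hM, hMx, hadj⟩ := hH x z hz.symm
  refine ⟨M y, hadj y hxy.symm hzy.symm, ?_, ?_⟩
  · intro h
    have : M x = y := by rw [← h, hM]
    exact hzy (hMx.symm.trans this)
  · intro h
    have := hadj y hxy.symm hzy.symm
    rw [h] at this
    exact H.loopless.irrefl y this

theorem brick_one {H : SimpleGraph W} (hH : Brk H) {x y z : W} (hxy : x ≠ y) (hz : z ≠ x)
    (hzy : z ≠ y) : (H.induce {w | w ≠ x}).Connected := by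
  obtain ⟨w, hw, hwx, hwy⟩ := brick_nbr hH hxy hz hzy
  have h1 := insert_connected (hH x y hxy).1 (y := y) (z := w) ⟨hwx, hwy⟩ hw
  have e : insert y {w | w ≠ x ∧ w ≠ y} = {w | w ≠ x} := by
    ext t
    simp only [Set.mem_insert_iff, Set.mem_ofPred_eq]
    constructor
    · rintro (rfl | h)
      · exact hxy.symm
      · exact h.1
    · intro h
      by_cases hty : t = y
      · exact Or.inl hty
      · exact Or.inr ⟨h, hty⟩
  rwa [e] at h1

theorem brick_zero {H : SimpleGraph W} (hH : Brk H) {x y z : W} (hxy : x ≠ y) (hz : z ≠ x)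
    (hzy : z ≠ y) : (H.induce Set.univ).Connected := by
  obtain ⟨w, hw, -, hwx⟩ := brick_nbr hH hxy.symm hzy hz
  have h1 := insert_connected (brick_one hH hxy hz hzy) (y := x) (z := w) hwx hw
  have e : insert x {w | w ≠ x} = Set.univ := by
    ext t
    simp only [Set.mem_insert_iff, Set.mem_ofPred_eq, Set.mem_univ, iff_true]
    exact em _
  rwa [e] at h1

/-- at most three vertices of a brick have `d ≤ 3` -/
theorem brick_three {H : SimpleGraph W} (hH : Brk H) {d : W → ℕ} (hd : UMin H d)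
    (h1 : ∀ x, 1 ≤ d x) {x y z : W} (hxy : x ≠ y) (hz : z ≠ x) (hzy : z ≠ y) :
    ∃ r₁ r₂ r₃ : W, ∀ w, d w ≤ 3 → w = r₁ ∨ w = r₂ ∨ w = r₃ := by
  obtain ⟨r₁, -, m1⟩ := hd _ (brick_zero hH hxy hz hzy)
  obtain ⟨y', z', hy', hz', hyz'⟩ : ∃ y' z' : W, r₁ ≠ y' ∧ z' ≠ r₁ ∧ z' ≠ y' := by
    by_cases hx : x = r₁
    · exact ⟨y, z, hx ▸ hxy, hx ▸ hz, hzy⟩
    · by_cases hy : y = r₁
      · exact ⟨x, z, fun h => hx h.symm, hy ▸ hzy, hz⟩
      · exact ⟨x, y, fun h => hx h.symm, hy, hxy.symm⟩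
  obtain ⟨r₂, hr₂, m2⟩ := hd _ (brick_one hH hy' hz' hyz')
  obtain ⟨r₃, hr₃, m3⟩ := hd _ (hH r₁ r₂ (Ne.symm hr₂)).1
  refine ⟨r₁, r₂, r₃, fun w hw => ?_⟩
  by_contra hcon
  push Not at hcon
  obtain ⟨hw1, hw2, hw3⟩ := hcon
  have a1 := h1 r₁
  have a2 := m1 r₂ (Set.mem_univ _) hr₂
  have a3 := m2 r₃ hr₃.1 hr₃.2
  have a4 := m3 w ⟨hw1, hw2⟩ hw3
  omega

/-- four consecutive vertices of a cycle: one of them has `d ≤ 3` -/
theorem path_four {H : SimpleGraph W} {d : W → ℕ} (hd : UMin H d) (h5 : ∀ x, d x ≤ 5)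
    {a b c e : W} (hab : H.Adj a b) (hbc : H.Adj b c) (hce : H.Adj c e) (hac : a ≠ c)
    (hbe : b ≠ e) (hae : a ≠ e) : d a ≤ 3 ∨ d b ≤ 3 ∨ d c ≤ 3 ∨ d e ≤ 3 := by
  by_contra hcon
  push Not at hcon
  obtain ⟨ha, hb, hc, he⟩ := hcon
  have c1 : (H.induce {a, b}).Connected := induce_pair_connected_of_adj hab
  have c2 : (H.induce {b, c}).Connected := induce_pair_connected_of_adj hbc
  have c3 : (H.induce {c, e}).Connected := induce_pair_connected_of_adj hce
  have hS : (H.induce (insert a (insert b {c, e}))).Connected :=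
    insert_connected (z := b) (insert_connected (z := c) c3 (by simp) hbc) (by simp) hab
  obtain ⟨v, hv, hmin⟩ := hd _ hS
  have pair : ∀ x y : W, H.Adj x y → d x = 5 → d y = 5 → False := by
    intro x y hxy h1 h2
    obtain ⟨u, hu, hm⟩ := hd {x, y} (induce_pair_connected_of_adj hxy)
    rcases hu with rfl | hu
    · have := hm y (by simp) hxy.ne'
      omega
    · have hu' : u = y := hu
      subst hu'
      have := hm x (by simp) hxy.ne
      omega
  have hfive : ∀ w ∈ (insert a (insert b {c, e}) : Set W), w ≠ v → d w = 5 := by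
    intro w hw hwv
    have h1 := hmin w hw hwv
    have h2 : 4 ≤ d v := by
      rcases hv with rfl | rfl | rfl | hv
      · omega
      · omega
      · omega
      · have : v = e := hv
        subst this; omega
    have h3 := h5 w
    omega
  by_cases hva : v = a ∨ v = b
  · have h1 : v ≠ c := by
      rcases hva with rfl | rfl
      · exact hac
      · exact hbc.ne
    have h2 : v ≠ e := by
      rcases hva with rfl | rfl
      · exact hae
      · exact hbe
    exact pair c e hce (hfive c (by simp) h1.symm) (hfive e (by simp) h2.symm)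
  · push Not at hva
    exact pair a b hab (hfive a (by simp) (Ne.symm hva.1)) (hfive b (by simp) (Ne.symm hva.2))

theorem cycle_one {H : SimpleGraph W} {d : W → ℕ} (hd : UMin H d) (h5 : ∀ x, d x ≤ 5)
    {v : W} (c : H.Walk v v) (hc : c.IsCycle) (hl : 5 ≤ c.length) :
    ∃ x ∈ c.support, x ≠ v ∧ d x ≤ 3 := by
  have adj : ∀ i, i < c.length → H.Adj (c.getVert i) (c.getVert (i + 1)) :=
    fun i hi => c.adj_getVert_succ hi
  have inj : ∀ i j, 1 ≤ i → i ≤ 4 → 1 ≤ j → j ≤ 4 → i ≠ j → c.getVert i ≠ c.getVert j := by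
    intro i j hi hi' hj hj' hij h
    exact hij (hc.getVert_injOn ⟨hi, by omega⟩ ⟨hj, by omega⟩ h)
  have nv : ∀ i, 1 ≤ i → i ≤ 4 → c.getVert i ≠ v := by
    intro i hi hi' h
    have h1 : c.getVert i = c.getVert c.length := by rw [h, Walk.getVert_length]
    have := hc.getVert_injOn ⟨hi, by omega⟩ ⟨by omega, le_rfl⟩ h1
    omega
  rcases path_four hd h5 (adj 1 (by omega)) (adj 2 (by omega)) (adj 3 (by omega))
    (inj 1 3 (by omega) (by omega) (by omega) (by omega) (by omega))
    (inj 2 4 (by omega) (by omega) (by omega) (by omega) (by omega))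
    (inj 1 4 (by omega) (by omega) (by omega) (by omega) (by omega)) with h | h | h | h
  · exact ⟨_, c.getVert_mem_support _, nv 1 (by omega) (by omega), h⟩
  · exact ⟨_, c.getVert_mem_support _, nv 2 (by omega) (by omega), h⟩
  · exact ⟨_, c.getVert_mem_support _, nv 3 (by omega) (by omega), h⟩
  · exact ⟨_, c.getVert_mem_support _, nv 4 (by omega) (by omega), h⟩

theorem cycle_two {H : SimpleGraph W} {d : W → ℕ} (hd : UMin H d) (h5 : ∀ x, d x ≤ 5)
    {v : W} (c : H.Walk v v) (hc : c.IsCycle) (hl : 5 ≤ c.length) :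
    ∃ x ∈ c.support, ∃ y ∈ c.support, x ≠ y ∧ d x ≤ 3 ∧ d y ≤ 3 := by
  classical
  obtain ⟨x, hx, -, hx3⟩ := cycle_one hd h5 c hc hl
  obtain ⟨y, hy, hyx, hy3⟩ := cycle_one hd h5 (c.rotate x hx) (hc.rotate hx)
    (by rw [Walk.length_rotate]; exact hl)
  refine ⟨x, hx, y, ?_, hyx.symm, hx3, hy3⟩
  exact (c.mem_support_rotate_iff x hx).1 hy

/-- In a brick with a ranking with five values any two long cycles meet. -/
theorem brick_meet {H : SimpleGraph W} (hH : Brk H) {d : W → ℕ} (hd : UMin H d)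
    (h1 : ∀ x, 1 ≤ d x) (h5 : ∀ x, d x ≤ 5) {v w : W} (c : H.Walk v v) (c' : H.Walk w w)
    (hc : c.IsCycle) (hc' : c'.IsCycle) (hl : 5 ≤ c.length) (hl' : 5 ≤ c'.length) :
    ∃ x ∈ c.support, x ∈ c'.support := by
  obtain ⟨x, hx, y, hy, hxy, hx3, hy3⟩ := cycle_two hd h5 c hc hl
  obtain ⟨x', hx', y', hy', hxy', hx3', hy3'⟩ := cycle_two hd h5 c' hc' hl'
  by_contra hcon
  push Not at hcon
  have n1 : x ≠ x' := fun h => hcon x hx (h ▸ hx')
  have n2 : x ≠ y' := fun h => hcon x hx (h ▸ hy')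
  have n3 : y ≠ x' := fun h => hcon y hy (h ▸ hx')
  have n4 : y ≠ y' := fun h => hcon y hy (h ▸ hy')
  obtain ⟨r₁, r₂, r₃, hr⟩ := brick_three hH hd h1 hxy n1.symm n3.symm
  rcases hr x hx3 with rfl | rfl | rfl <;> rcases hr y hy3 with rfl | rfl | rfl <;>
    rcases hr x' hx3' with rfl | rfl | rfl <;> rcases hr y' hy3' with rfl | rfl | rfl <;>
    first
      | exact hxy rfl
      | exact n1 rfl
      | exact n2 rfl
      | exact n3 rfl
      | exact n4 rfl
      | exact hxy' rfl

/-- Tree-depth at most `k`: there is a partial order on the vertices (ancestors in a rooted forest)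
in which the elements below any vertex form a chain with at most `k` elements, and the ends of every
edge are comparable. -/
def TreeDepthLE (k : ℕ) (G : SimpleGraph V) : Prop :=
  ∃ le : V → V → Prop, (∀ x, le x x) ∧ (∀ x y, le x y → le y x → x = y) ∧
    (∀ x y z, le x y → le y z → le x z) ∧
    (∀ x y z, le x z → le y z → le x y ∨ le y x) ∧
    (∀ z, {x | le x z}.Finite ∧ {x | le x z}.ncard ≤ k) ∧
    ∀ x y, G.Adj x y → le x y ∨ le y x

theorem umin_of_treeDepth {k : ℕ} {G : SimpleGraph V} (h : TreeDepthLE k G) :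
    ∃ d : V → ℕ, UMin G d ∧ (∀ x, 1 ≤ d x) ∧ ∀ x, d x ≤ k := by
  obtain ⟨le, hrefl, hanti, htrans, hchain, hfin, hadj⟩ := h
  refine ⟨fun z => {x | le x z}.ncard, ?_, ?_, fun x => (hfin x).2⟩
  · have hlt : ∀ x y, le x y → x ≠ y → {u | le u x}.ncard < {u | le u y}.ncard := by
      intro x y hxy hne
      apply Set.ncard_lt_ncard _ (hfin y).1
      refine ⟨fun u hu => htrans u x y hu hxy, fun hsub => ?_⟩
      exact hne (hanti x y hxy (hsub (hrefl y)))
    intro S hS
    obtain ⟨v0⟩ := hS.nonempty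
    obtain ⟨v, hv, hmin⟩ : ∃ v ∈ S, ∀ w ∈ S, {u | le u v}.ncard ≤ {u | le u w}.ncard := by
      have hne : S.Nonempty := ⟨v0, v0.2⟩
      obtain ⟨v, hv, hm⟩ := WellFounded.has_min
        (InvImage.wf (fun z : V => {x | le x z}.ncard) Nat.lt_wfRel.wf) S hne
      exact ⟨v, hv, fun w hw => not_lt.1 (hm w hw)⟩
    refine ⟨v, hv, ?_⟩
    have hall : ∀ w : S, (G.induce S).Reachable ⟨v, hv⟩ w → le v w := by
      rintro w ⟨p⟩
      have gen : ∀ (a b : S), (G.induce S).Walk a b → le v a → le v b := by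
        intro a b p
        induction p with
        | nil => exact id
        | @cons a b c hab p ih =>
          intro hva
          apply ih
          rcases hadj a b hab with h | h
          · exact htrans _ _ _ hva h
          · rcases hchain v b a hva h with h' | h'
            · exact h'
            · by_cases hvb : (b : V) = v
              · rw [hvb]; exact hrefl v
              · exact absurd (hlt b v h' hvb) (not_lt.2 (hmin b b.2))
      exact gen _ _ p (hrefl v)
    intro w hw hwv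
    exact hlt v w (hall ⟨w, hw⟩ (hS.preconnected _ _)) hwv.symm
  · intro x
    exact (Set.ncard_pos (hfin x).1).2 ⟨x, hrefl x⟩

end Pool.Agent.Run7.h925.LB
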